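import Pool.Agent.helper82.DP.D1
import Pool.Agent.helper64.TP.SpecD
import Pool.Agent.helper64.TP.Basic
import Pool.Agent.helper64.TP.Conv
/-!
# Module D1 of project dp: the expected number of crossing interface edges
-/

namespace TP

open DP

open MeasureTheory

/-! ## Elementary facts on the distance and on connections -/

/-! ## One window -/

/-- The interface event at position `i`. -/
def D1_A (U : ℤ → V) (H : Set V) (y : V) (ρ n : ℕ) (i : ℤ) : Set (V → Bool) :=
  Ev fun c => ∃ k, D1_f c U H y ρ n i = some k ∧ D1_f c U H y ρ n (i + 1) = some (!k)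

theorem D1_A_meas (U : ℤ → V) (H : Set V) (y : V) (ρ n : ℕ) (i : ℤ) (hH : H ⊆ box y ρ) :
    MeasurableSet (D1_A U H y ρ n i) := by
  classical
  refine Dep.measurableSet (Λ := D1_bx y ρ ∪ {U i, U (i + 1)}) ?_
  intro b b' hbb
  have hcol : ∀ v ∈ D1_bx y ρ ∪ {U i, U (i + 1)}, col b v = col b' v := fun v hv =>
    col_congr (hbb v (by exact_mod_cast hv))
  have hHc : ∀ v ∈ H, col b v = col b' v := fun v hv =>
    hcol v (Finset.mem_union_left _ (D1_mem_bx (hH hv)))
  have e1 : D1_f (col b) U H y ρ n i = D1_f (col b') U H y ρ n i :=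
    D1_f_congr hHc (hcol _ (by simp))
  have e2 : D1_f (col b) U H y ρ n (i + 1) = D1_f (col b') U H y ρ n (i + 1) :=
    D1_f_congr hHc (hcol _ (by simp))
  show (∃ k, D1_f (col b) U H y ρ n i = some k ∧ D1_f (col b) U H y ρ n (i + 1) = some (!k)) ↔
    ∃ k, D1_f (col b') U H y ρ n i = some k ∧ D1_f (col b') U H y ρ n (i + 1) = some (!k)
  rw [e1, e2]

theorem D1_window (hTO : TO_stmt) (hTI : TI_stmt) (hSQ : SQ_stmt) (hMA : MA_stmt)
    (hCG2 : CG2_stmt) (c₀ : ℝ) (h0 : 0 < c₀) (ℓ : ℕ)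
    (hC : ∀ k' g, c₀ ≤ Pr (Ev fun c => ∃ S, Loop c k' g ℓ S)) (hℓ : 1 ≤ ℓ) (s : Bool) (x : V)
    (n ρ : ℕ) (hx : Even (x.1 + x.2)) (hρ : 3 * ℓ ≤ ρ) (hρn : ρ ≤ n) (U : ℤ → V)
    (hU : ∀ p : ℤ, 0 < p → p ≤ 8 * n → U p ∈ bd x n ∧ pos x n (U p) = p) (p : ℤ) (hp0 : 0 ≤ p)
    (hp : p + 1 ≤ 8 * n) :
    ∑ i ∈ Finset.Ioc p (p + ℓ), Pr (D1_A U (HS s x n ∩ box (U (p + 1)) ρ) (U (p + 1)) ρ n i) ≤
      4 / c₀ := by
  classical
  set y := U (p + 1) with hy
  set H := HS s x n ∩ box y ρ with hH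
  have hn : 1 ≤ n := by omega
  have hHb : H ⊆ box y ρ := Set.inter_subset_right
  obtain ⟨hyb, hyp⟩ := hU (p + 1) (by omega) hp
  set J : Set V := {u | u ∈ bd x n ∧ p < pos x n u ∧ pos x n u ≤ p + ℓ + 1} with hJ
  have hJd : ∀ u ∈ J, sd y u ≤ ℓ := by
    rintro u ⟨h1, h2, h3⟩
    have h4 := (hCG2 x n hn y hyb u h1).1
    rw [hyp] at h4
    have h5 : |p + 1 - pos x n u| ≤ ℓ := by
      rw [abs_le]
      omega
    omega
  have hJb : J ⊆ box y ℓ := fun u hu => hJd u hu
  have hc1 : c₀ ≤ 1 := le_trans (hC true (0, 0)) (D1_Pr_le_one _)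
  have hmulti : ∀ (k : Bool) (t : ℕ),
      Pr (Ev fun c => Multi c k H J y ρ t) ≤ (1 - c₀) ^ t := fun k t =>
    hMA c₀ ℓ ρ t y k H J h0.le hC hJb hρ hℓ hHb
  have hcount := D1_count (Finset.Ioc p (p + ℓ)) (fun i => D1_A U H y ρ n i)
    (fun i _ => D1_A_meas U H y ρ n i hHb) (fun t => 2 * (1 - c₀) ^ (t / 2 + 1)) ?_
  · refine le_trans hcount ?_
    rw [← Finset.mul_sum]
    have := D1_geom (lam := 1 - c₀) (by linarith) (by linarith) (Finset.Ioc p (p + ℓ)).card
    have e : 4 / c₀ = 2 * (2 / (1 - (1 - c₀))) := by ring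
    rw [e]
    linarith
  · intro t ht1 ht2
    have hsub : {b : V → Bool | ∃ I : Finset ℤ, I ⊆ Finset.Ioc p (p + ℓ) ∧ t ≤ I.card ∧
        ∀ i ∈ I, b ∈ D1_A U H y ρ n i} ⊆
        (Ev fun c => Multi c true H J y ρ (t / 2 + 1)) ∪
          (Ev fun c => Multi c false H J y ρ (t / 2 + 1)) := by
      rintro b ⟨I, hI1, hI2, hI3⟩
      obtain ⟨u, k, hu1, hu2⟩ := hSQ (D1_f (col b) U H y ρ n) p (ℓ + 1) t I (by
        intro i hi
        have hi' := hI1 hi
        rw [Finset.mem_Ioc] at hi'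
        refine ⟨hi'.1, by push_cast; omega, hI3 i hi⟩) hI2 ht1
      have hmono : ∀ j, j ≤ t → ∀ i, i < j → u i < u j := by
        intro j
        induction j with
        | zero => intro _ i hi; omega
        | succ j ih =>
          intro hj i hi
          have h1 := hu2 j (by omega)
          rcases Nat.lt_succ_iff_lt_or_eq.1 hi with h | h
          · exact lt_trans (ih (by omega) i h) h1
          · rw [h]; exact h1
      have hprop : ∀ i ≤ t, p < u i ∧ u i ≤ p + ℓ + 1 ∧ 0 < u i ∧ u i ≤ 8 * n ∧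
          col b (U (u i)) = xor k (decide (i % 2 = 1)) ∧
          ∃ z, sd y z = ρ ∧ Conn (col b) (xor k (decide (i % 2 = 1))) H (U (u i)) z := by
        intro i hi
        obtain ⟨h1, h2, h3⟩ := hu1 i hi
        obtain ⟨h4, h5, h6, h7⟩ := D1_f_some h3
        push_cast at h2
        exact ⟨h1, by linarith, h4, h5, h6, h7⟩
      have hM : Multi (col b) k H J y ρ (t / 2 + 1) := by
        refine ⟨fun m => U (u (2 * m)), ?_, ?_⟩
        · intro m hm
          have hm2 : 2 * m ≤ t := by omega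
          obtain ⟨h1, h2, h3, h4, h5, h6⟩ := hprop (2 * m) hm2
          have e : decide (2 * m % 2 = 1) = false := by
            rw [decide_eq_false_iff_not]; omega
          rw [e, Bool.xor_false] at h6
          obtain ⟨h7, h8⟩ := hU (u (2 * m)) h3 h4
          exact ⟨⟨h7, by rw [h8]; exact h1, by rw [h8]; exact h2⟩, h6⟩
        · have hlt : ∀ m m', m < m' → m' < t / 2 + 1 →
              ¬ Conn (col b) k H (U (u (2 * m))) (U (u (2 * m'))) := by
            intro m m' hmm hm'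
            have hm2 : 2 * m' ≤ t := by omega
            obtain ⟨a1, a2, a3, a4, a5, a6⟩ := hprop (2 * m) (by omega)
            obtain ⟨b1, b2, b3, b4, b5, z, hz, b6⟩ := hprop (2 * m + 1) (by omega)
            obtain ⟨d1, d2, d3, d4, d5, d6⟩ := hprop (2 * m') hm2
            have e : ∀ q, decide (2 * q % 2 = 1) = false := by
              intro q
              rw [decide_eq_false_iff_not]; omega
            have e' : decide ((2 * m + 1) % 2 = 1) = true := by
              rw [decide_eq_true_iff]; omega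
            rw [e, Bool.xor_false] at a5 d5
            rw [e', Bool.xor_true] at b5 b6
            obtain ⟨a7, a8⟩ := hU _ a3 a4
            obtain ⟨b7, b8⟩ := hU _ b3 b4
            obtain ⟨d7, d8⟩ := hU _ d3 d4
            have o1 : u (2 * m) < u (2 * m + 1) := hmono _ (by omega) _ (by omega)
            have o2 : u (2 * m + 1) < u (2 * m') := hmono _ (by omega) _ (by omega)
            refine D1_T hTO hTI s (col b) k x n y ρ hx hyb (by omega) hρn _ (U (u (2 * m + 1))) _ z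
              ?_ ?_ a5 b5 d5 hz b6
            · refine ⟨a7, d7, b7, ?_⟩
              rw [a8, b8, d8, if_pos (by omega)]
              omega
            · rintro w ⟨_, _, w3, w4⟩
              rw [a8, d8, if_pos (by omega)] at w4
              have := hJd w ⟨w3, by omega, by omega⟩
              omega
          intro m hm m' hm' hne hcon
          rcases Nat.lt_or_gt_of_ne hne with h | h
          · exact hlt m m' h hm' hcon
          · exact hlt m' m h hm (D1_con_symm hcon)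
      cases k with
      | true => exact Or.inl hM
      | false => exact Or.inr hM
    refine le_trans (D1_Pr_mono hsub) (le_trans (D1_Pr_union _ _) ?_)
    have h1 := hmulti true (t / 2 + 1)
    have h2 := hmulti false (t / 2 + 1)
    linarith

/-! ## All windows -/

open Classical in
theorem D1 (hC1 : C1_stmt) (hTO : TO_stmt) (hTI : TI_stmt) (hSQ : SQ_stmt) (hMA : MA_stmt)
    (hCG1 : CG1_stmt) (hCG2 : CG2_stmt) : D1_stmt := by
  obtain ⟨c₀, hc₀, ℓ₀, hℓ₀, hC⟩ := hC1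
  refine ⟨144 * ℓ₀ + 1032 / c₀ + 2, by positivity, ?_⟩
  intro s x n R hx hR hRn
  have hn : 1 ≤ n := le_trans hR hRn
  have hRpos : (0 : ℝ) < R := by exact_mod_cast hR
  have hnR : (1 : ℝ) ≤ (n : ℝ) / R := by
    rw [le_div_iff₀ hRpos]
    have : (R : ℝ) ≤ n := by exact_mod_cast hRn
    linarith
  have hcex : ∀ p : ℤ, ∃ u : V, 0 < p → p ≤ 8 * n → u ∈ bd x n ∧ pos x n u = p := by
    intro p
    by_cases h : 0 < p ∧ p ≤ 8 * n
    · obtain ⟨u, hu1, hu2⟩ := (hCG1 x n hn).2.2 p h.1 h.2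
      exact ⟨u, fun _ _ => ⟨hu1, hu2⟩⟩
    · exact ⟨(0, 0), fun h1 h2 => absurd ⟨h1, h2⟩ h⟩
  choose U hU using hcex
  have hcard : (Finset.Icc (1 : ℤ) (8 * n)).card = 8 * n := by
    rw [Int.card_Icc]
    omega
  by_cases hsmall : R < 8 * ℓ₀
  · have h := D1_total hCG1 x n hn U hU
      (fun a b => Ev fun c => TwoEnd c (HS s x n ∩ box b R) R a b) (fun _ => 1)
      (fun _ => zero_le_one) (fun _ _ _ => D1_Pr_le_one _) (fun _ _ _ => D1_Pr_le_one _)
    refine le_trans h ?_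
    rw [Finset.sum_const, hcard]
    have h1 : (R : ℝ) ≤ 8 * ℓ₀ := by exact_mod_cast hsmall.le
    have h2 : (18 : ℝ) * n ≤ 144 * ℓ₀ * ((n : ℝ) / R) := by
      rw [mul_div_assoc', le_div_iff₀ hRpos]
      have : (0 : ℝ) ≤ n := Nat.cast_nonneg n
      nlinarith
    have h3 : (1 : ℝ) ≤ n := by exact_mod_cast hn
    have h4 : 0 ≤ (1032 / c₀ + 2) * ((n : ℝ) / R) := by positivity
    simp only [nsmul_eq_mul]
    push_cast
    nlinarith
  · have hℓ1 : ℓ₀ ≤ R / 8 := by omega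
    set ℓ := R / 8 with hℓ
    set ρ := R / 2 with hρ
    have hℓpos : 1 ≤ ℓ := by omega
    set K : ℕ := (8 * n - 1) / ℓ + 1 with hK
    set y : ℕ → V := fun j => U ((j : ℤ) * ℓ + 1) with hy
    set A : ℕ → ℤ → ℝ := fun j i =>
      Pr (D1_A U (HS s x n ∩ box (y j) ρ) (y j) ρ n i) with hA
    set B : ℤ → ℝ := fun i => ∑ j ∈ Finset.range K,
      if (j : ℤ) * ℓ < i ∧ i ≤ (j : ℤ) * ℓ + ℓ then A j i else 0 with hB
    have hA0 : ∀ j i, 0 ≤ A j i := fun j i => D1_Pr_nonneg _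
    have hB0 : ∀ i, 0 ≤ B i := by
      intro i
      refine Finset.sum_nonneg fun j _ => ?_
      split_ifs
      · exact hA0 _ _
      · exact le_rfl
    have hjn : ∀ j, j < K → (j : ℤ) * ℓ + 1 ≤ 8 * n := by
      intro j hj
      have h1 : j ≤ (8 * n - 1) / ℓ := by omega
      have h2 : j * ℓ ≤ 8 * n - 1 := (Nat.le_div_iff_mul_le hℓpos).1 h1
      have h3 : ((j * ℓ : ℕ) : ℤ) ≤ ((8 * n - 1 : ℕ) : ℤ) := by exact_mod_cast h2
      push_cast at h3
      omega
    have hBev : ∀ i : ℤ, 0 < i → i + 1 ≤ 8 * n → ∀ F : Set (V → Bool),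
        (∀ (yy : V), yy ∈ bd x n → |pos x n yy - i| ≤ ℓ → |pos x n yy - (i + 1)| ≤ ℓ →
          F ⊆ D1_A U (HS s x n ∩ box yy ρ) yy ρ n i) → Pr F ≤ B i := by
      intro i hi0 hi1 F hF
      obtain ⟨j, hj⟩ : ∃ j : ℕ, (j : ℤ) = (i - 1) / ℓ :=
        ⟨((i - 1) / ℓ).toNat, Int.toNat_of_nonneg (Int.ediv_nonneg (by omega) (by omega))⟩
      have hℓz : (0 : ℤ) < ℓ := by exact_mod_cast hℓpos
      have e1 : (j : ℤ) * ℓ ≤ i - 1 := by
        rw [hj]; exact Int.ediv_mul_le _ hℓz.ne'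
      have e2 : i - 1 < (j : ℤ) * ℓ + ℓ := by
        have := Int.lt_ediv_add_one_mul_self (i - 1) hℓz
        rw [← hj] at this
        linarith
      have hjK : j < K := by
        have h1 : j * ℓ ≤ 8 * n - 1 := by
          have : ((j * ℓ : ℕ) : ℤ) ≤ i - 1 := by push_cast; exact e1
          omega
        have h2 : j ≤ (8 * n - 1) / ℓ := (Nat.le_div_iff_mul_le hℓpos).2 h1
        omega
      obtain ⟨y1, y2⟩ := hU ((j : ℤ) * ℓ + 1) (by positivity) (hjn j hjK)
      have h3 : Pr F ≤ A j i := by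
        refine D1_Pr_mono (hF (y j) y1 ?_ ?_)
        · show |pos x n (U ((j : ℤ) * ℓ + 1)) - i| ≤ ℓ
          rw [y2, abs_le]
          constructor <;> linarith
        · show |pos x n (U ((j : ℤ) * ℓ + 1)) - (i + 1)| ≤ ℓ
          rw [y2, abs_le]
          constructor <;> linarith
      refine le_trans h3 ?_
      have h4 := Finset.single_le_sum (f := fun j : ℕ =>
        if (j : ℤ) * ℓ < i ∧ i ≤ (j : ℤ) * ℓ + ℓ then A j i else 0) (s := Finset.range K)
        (fun j _ => by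
          split_ifs
          · exact hA0 _ _
          · exact le_rfl) (Finset.mem_range.2 hjK)
      have h5 : (j : ℤ) * ℓ < i ∧ i ≤ (j : ℤ) * ℓ + ℓ := ⟨by linarith, by linarith⟩
      simp only [h5, and_self, if_true] at h4
      exact h4
    have hdist : ∀ (yy : V) (i : ℤ), yy ∈ bd x n → 0 < i → i ≤ 8 * n → |pos x n yy - i| ≤ ℓ →
        sd yy (U i) ≤ ℓ := by
      intro yy i hyy h1 h2 h3
      obtain ⟨h4, h5⟩ := hU i h1 h2
      have h6 := (hCG2 x n hn yy hyy (U i) h4).1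
      rw [h5] at h6
      omega
    have hboth : ∀ (i : ℤ) (c : V → Bool) (yy : V), 0 < i → i + 1 ≤ 8 * n →
        c (U i) ≠ c (U (i + 1)) →
        (∃ z, sd yy z = ρ ∧ Conn c (c (U i)) (HS s x n ∩ box yy ρ) (U i) z) →
        (∃ z, sd yy z = ρ ∧ Conn c (c (U (i + 1))) (HS s x n ∩ box yy ρ) (U (i + 1)) z) →
        ∃ k, D1_f c U (HS s x n ∩ box yy ρ) yy ρ n i = some k ∧
          D1_f c U (HS s x n ∩ box yy ρ) yy ρ n (i + 1) = some (!k) := by
      intro i c yy hi0 hi1 hne h1 h2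
      refine ⟨c (U i), D1_f_of hi0 (by omega) h1, ?_⟩
      rw [D1_f_of (by omega) hi1 h2]
      congr 1
      revert hne
      cases c (U i) <;> cases c (U (i + 1)) <;> simp
    have hB1 : ∀ i : ℤ, 0 < i → i + 1 ≤ 8 * n →
        Pr (Ev fun c => TwoEnd c (HS s x n ∩ box (U i) R) R (U (i + 1)) (U i)) ≤ B i := by
      intro i hi0 hi1
      refine hBev i hi0 hi1 _ ?_
      intro yy hyy hd1 hd2 b hb
      obtain ⟨h1, h2, h3⟩ := D1_cross (hdist yy (i + 1) hyy (by omega) hi1 hd2)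
        (hdist yy i hyy hi0 (by omega) hd1) (show ℓ ≤ ρ by omega) (show ρ + ℓ ≤ R by omega) hb
      exact hboth i (col b) yy hi0 hi1 (Ne.symm h1) h3 h2
    have hB2 : ∀ i : ℤ, 0 < i → i + 1 ≤ 8 * n →
        Pr (Ev fun c => TwoEnd c (HS s x n ∩ box (U (i + 1)) R) R (U i) (U (i + 1))) ≤ B i := by
      intro i hi0 hi1
      refine hBev i hi0 hi1 _ ?_
      intro yy hyy hd1 hd2 b hb
      obtain ⟨h1, h2, h3⟩ := D1_cross (hdist yy i hyy hi0 (by omega) hd1)
        (hdist yy (i + 1) hyy (by omega) hi1 hd2) (show ℓ ≤ ρ by omega)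
        (show ρ + ℓ ≤ R by omega) hb
      exact hboth i (col b) yy hi0 hi1 h1 h2 h3
    have h := D1_total hCG1 x n hn U hU
      (fun a b => Ev fun c => TwoEnd c (HS s x n ∩ box b R) R a b) B hB0 hB1 hB2
    refine le_trans h ?_
    have hBsum : ∑ i ∈ Finset.Icc (1 : ℤ) (8 * n), B i ≤ K * (4 / c₀) := by
      rw [hB, Finset.sum_comm]
      have : ∀ j ∈ Finset.range K, ∑ i ∈ Finset.Icc (1 : ℤ) (8 * n),
          (if (j : ℤ) * ℓ < i ∧ i ≤ (j : ℤ) * ℓ + ℓ then A j i else 0) ≤ 4 / c₀ := by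
        intro j hj
        rw [Finset.mem_range] at hj
        rw [← Finset.sum_filter]
        refine le_trans (Finset.sum_le_sum_of_subset_of_nonneg
          (t := Finset.Ioc ((j : ℤ) * ℓ) ((j : ℤ) * ℓ + ℓ)) ?_ (fun i _ _ => hA0 j i)) ?_
        · intro i hi
          rw [Finset.mem_filter] at hi
          rw [Finset.mem_Ioc]
          exact hi.2
        · exact D1_window hTO hTI hSQ hMA hCG2 c₀ hc₀ ℓ (fun k' g => hC k' g ℓ hℓ1) hℓpos s x n ρ hx
            (by omega) (by omega) U hU ((j : ℤ) * ℓ) (by positivity) (hjn j hj)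
      refine le_trans (Finset.sum_le_sum this) ?_
      rw [Finset.sum_const, Finset.card_range, nsmul_eq_mul]
    have hKle : (K : ℝ) ≤ 129 * ((n : ℝ) / R) := by
      have h1 : (K : ℝ) ≤ 8 * n / ℓ + 1 := by
        rw [hK]
        push_cast
        have h2 : (((8 * n - 1) / ℓ : ℕ) : ℝ) ≤ ((8 * n - 1 : ℕ) : ℝ) / ℓ := Nat.cast_div_le
        have h3 : ((8 * n - 1 : ℕ) : ℝ) ≤ 8 * n := by
          have : 8 * n - 1 ≤ 8 * n := Nat.sub_le _ _
          exact_mod_cast this
        have hℓr : (0 : ℝ) < ℓ := by exact_mod_cast hℓpos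
        have h4 : ((8 * n - 1 : ℕ) : ℝ) / ℓ ≤ 8 * n / ℓ := div_le_div_of_nonneg_right h3 hℓr.le
        linarith
      have h5 : (8 : ℝ) * n / ℓ ≤ 128 * ((n : ℝ) / R) := by
        have hℓr : (0 : ℝ) < ℓ := by exact_mod_cast hℓpos
        rw [mul_div_assoc', div_le_div_iff₀ hℓr hRpos]
        have h6 : (R : ℝ) ≤ 16 * ℓ := by
          have : R ≤ 16 * ℓ := by omega
          exact_mod_cast this
        have : (0 : ℝ) ≤ n := Nat.cast_nonneg n
        nlinarith
      linarith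
    have hfin : 2 * ((K : ℝ) * (4 / c₀)) ≤ 1032 / c₀ * ((n : ℝ) / R) := by
      have h1 : (0 : ℝ) ≤ 4 / c₀ := by positivity
      have h2 : 2 * ((K : ℝ) * (4 / c₀)) ≤ 2 * ((129 * ((n : ℝ) / R)) * (4 / c₀)) := by
        have := mul_le_mul_of_nonneg_right hKle h1
        linarith
      refine le_trans h2 (le_of_eq ?_)
      ring
    have hlast : 0 ≤ (144 * (ℓ₀ : ℝ)) * ((n : ℝ) / R) := by positivity
    nlinarith

end TP
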