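import Pool.Agent.helper55.DP.D2
import Pool.Agent.helper64.TP.SpecD
import Pool.Agent.helper64.TP.Basic
/-!
# Module D2: the third arm costs a one-arm probability
-/

namespace TP

open DP

open MeasureTheory

theorem D2 (hB : Bbk_stmt) : D2_stmt := by
  intro k G r R a b hG hab hrR
  set Λ : Finset V := D2_bx b R with hΛ
  have hGΛ : ∀ v ∈ G, v ∈ Λ := fun v hv => D2_mem_bx (hG hv)
  set I : Set (V → Bool) := Ev fun c => ∃ z, sd b z = R ∧ Conn c (!k) G b z with hI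
  set D : Set (Finset V) := {K | ∃ (l : List V) (z : V), sd b z = R ∧ IsPath G l a z ∧
    K = l.toFinset} with hD
  set D' : Set (Finset V) := {K | ∃ (l : List V) (w z : V), sd b w = r ∧ sd b z = R ∧
    IsPath G l w z ∧ K = l.toFinset} with hD'
  have hDΛ : ∀ K ∈ D, K ⊆ Λ := by
    rintro K ⟨l, z, _, hl, rfl⟩ v hv
    exact hGΛ v (hl.2.2.2 v (by simpa using hv))
  have hDΛ' : ∀ K ∈ D', K ⊆ Λ := by
    rintro K ⟨l, w, z, _, _, hl, rfl⟩ v hv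
    exact hGΛ v (hl.2.2.2 v (by simpa using hv))
  have hLoc : Loc I (Λ : Set V) := by
    have key : ∀ c c' : V → Bool, (∀ v ∈ (Λ : Set V), c v = c' v) →
        (∃ z, sd b z = R ∧ Conn c (!k) G b z) → ∃ z, sd b z = R ∧ Conn c' (!k) G b z := by
      rintro c c' h ⟨z, hz, hc⟩
      refine ⟨z, hz, D2_con_mono ?_ hc⟩
      rintro w ⟨hw, hcw⟩
      exact ⟨hw, by rw [← h w (by exact_mod_cast hGΛ w hw)]; exact hcw⟩
    exact Loc.ev Λ.finite_toSet fun c c' h =>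
      ⟨key c c' h, key c' c fun v hv => (h v hv).symm⟩
  have hMon : Mon (!k) I := by
    refine Mon.ev ?_
    rintro c c' h ⟨z, hz, hc⟩
    refine ⟨z, hz, D2_con_mono ?_ hc⟩
    rintro w ⟨hw, hcw⟩
    exact ⟨hw, h w hcw⟩
  have h1 := hB k Λ D D' I hDΛ hDΛ' hLoc hMon
  have hpath : ∀ (c : V → Bool) (l : List V) (u v : V), IsPath G l u v →
      (∀ w ∈ l.toFinset, c w = k) → IsPath {w | w ∈ G ∧ c w = k} l u v := by
    intro c l u v hl hc
    exact ⟨hl.1, hl.2.1, hl.2.2.1, fun w hw => ⟨hl.2.2.2 w hw, hc w (by simpa using hw)⟩⟩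
  have hpath' : ∀ (c : V → Bool) (l : List V) (u v : V), IsPath {w | w ∈ G ∧ c w = k} l u v →
      IsPath G l u v ∧ ∀ w ∈ l.toFinset, c w = k := by
    intro c l u v hl
    exact ⟨⟨hl.1, hl.2.1, hl.2.2.1, fun w hw => (hl.2.2.2 w hw).1⟩,
      fun w hw => (hl.2.2.2 w (by simpa using hw)).2⟩
  refine le_trans (D2_mono ?_) (le_trans h1 (mul_le_mul (D2_mono ?_) (D2_mono ?_)
    (D2_nonneg _) (D2_nonneg _)))
  · intro c hc
    obtain ⟨_, _, ⟨z₀, hz₀, hc₀⟩, l, l', z, w, z', hz, hw, hz', hl, hl', hdis⟩ := hc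
    refine ⟨⟨z₀, hz₀, hc₀⟩, l.toFinset, ?_, l'.toFinset, ?_, ?_, ?_, ?_⟩
    · exact ⟨l, z, hz, (hpath' _ _ _ _ hl).1, rfl⟩
    · exact ⟨l', w, z', hw, hz', (hpath' _ _ _ _ hl').1, rfl⟩
    · intro v hv v' hv'
      exact hdis v (by simpa using hv) v' (by simpa using hv')
    · exact (hpath' _ _ _ _ hl).2
    · exact (hpath' _ _ _ _ hl').2
  · rintro c ⟨⟨z₀, hz₀, hc₀⟩, K, ⟨l, z, hz, hl, rfl⟩, hK⟩
    have hcon : Con {w | w ∈ G ∧ TP.col c w = k} a z := D2_con l a z (hpath _ _ _ _ hl hK)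
    have hca : TP.col c a = k := hcon.1.2
    have hcb : TP.col c b = !k := hc₀.1.2
    refine ⟨?_, ⟨z, hz, ?_⟩, ⟨z₀, hz₀, ?_⟩⟩
    · rw [hca, hcb]; cases k <;> decide
    · rw [hca]; exact hcon
    · rw [hcb]; exact hc₀
  · rintro c ⟨L, ⟨l, w, z, hw, hz, hl, rfl⟩, hL⟩
    refine ⟨w, z, hw.le, hz.ge, D2_con_mono ?_ (D2_con l w z (hpath _ _ _ _ hl hL))⟩
    rintro v ⟨_, hv⟩
    exact ⟨Set.mem_univ _, hv⟩

end TP
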