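import Pool.Agent.helper31.DP.D3
import Pool.Agent.helper64.TP.SpecD

/-!
# Deterministic separation of the end points (brick wall)
-/

namespace TP

open DP

theorem D3_core (hDE : DE_stmt) (hDA : DA_stmt) (j : ℕ) (s : Bool) (c : V → Bool) (x : V)
    (n n' r₁ r₂ r₃ : ℕ) (he : Even (x.1 + x.2)) (hn' : 1 ≤ n') (hg : gap s n n' r₃)
    (h1 : 1 ≤ r₁) (h12 : 8 * r₁ ≤ r₂) (h2 : 8 ≤ r₂) (h23 : 16 * r₂ ≤ r₃) (h3 : r₃ ≤ n)
    (hB : ¬ Bad s c x n (r₂ + 4) r₃) (hB' : ¬ Bad s c x n r₁ r₂) (u a b : ℕ → V)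
    (hu : ∀ i < j, c (u i) = kol i ∧ crX s c x n n' (u i))
    (hab : ∀ i < j, nb x n (a i) (b i) ∧ a i ∈ bd x n ∧ c (b i) = !(kol i) ∧
      Conn c (kol i) (AN s x n n') (u i) (a i) ∧ crX s c x n n' (b i))
    (hd : ∀ i < j, ∀ i' < j, i ≠ i' →
      ¬ ((a i = a i' ∧ b i = b i') ∨ (a i = b i' ∧ b i = a i'))) :
    (∀ i < j, ∀ i' < j, i ≠ i' → r₂ ≤ sd (a i) (a i')) ∧
      ∀ i < j, ∀ i' < j, kol i ≠ kol i' → ∀ (p : V) (l : List V), far s x n' p →
        IsPath {v | v ∈ HS s x n ∧ c v = kol i} l (a i) p → BNd l →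
          ∀ w ∈ l, r₁ ≤ sd (a i') w := by
  have hcr : ∀ i < j, c (a i) = kol i ∧ crX s c x n n' (a i) := by
    intro i hi
    obtain ⟨_, hb, _, hc, _⟩ := hab i hi
    have h := D3_crX_of (hu i hi).2 hb (by rw [(hu i hi).1]; exact hc)
    rw [(hu i hi).1] at h
    exact h
  have hsep : ∀ i < j, ∀ i' < j, i ≠ i' → r₂ ≤ sd (a i) (a i') := by
    intro i hi i' hi' hne
    obtain ⟨hn1, _, hc1, _, hx1⟩ := hab i hi
    obtain ⟨hn2, _, hc2, _, hx2⟩ := hab i' hi'
    have := hDE s c x n n' (r₂ + 4) r₃ he hn' hg (by omega) (by omega) h3 hB (a i) (b i) (a i')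
      (b i') hn1 hn2 (by rw [(hcr i hi).1, hc1]; cases kol i <;> simp)
      (by rw [(hcr i' hi').1, hc2]; cases kol i' <;> simp) (hcr i hi).2 hx1 (hcr i' hi').2 hx2
      (hd i hi i' hi' hne)
    omega
  refine ⟨hsep, ?_⟩
  intro i hi i' hi' hk p l hp hl hnd w hw
  obtain ⟨hn2, _, hc2, _, hx2⟩ := hab i' hi'
  have hk' : kol i' = !(kol i) := by
    revert hk
    cases kol i <;> cases kol i' <;> simp
  have hne : i ≠ i' := fun h => hk (by rw [h])
  have hg2 : gap s n n' r₂ := by
    cases s
    · simp only [gap, Bool.false_eq_true, if_false] at hg ⊢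
      omega
    · simp only [gap, if_true] at hg ⊢
      omega
  refine hDA s c (kol i) x n n' r₁ r₂ he hn' hg2 h1 (by omega) (by omega) hB' (b i') (a i')
    hn2.symm ?_ ?_ hx2 (hcr i' hi').2 (a i) p l (hsep i' hi' i hi hne.symm) hp hl hnd w hw
  · rw [hc2, hk', Bool.not_not]
  · rw [(hcr i' hi').1, hk']

theorem D3 (hCG : CG1_stmt) (hQO : QO_stmt) (hQI : QI_stmt) (hDE : DE_stmt) (hDA : DA_stmt) :
    D3_stmt := by
  intro j s c x n n' r₁ r₂ r₃ hj he hn' hg h1 h12 h2 h23 h3 hB hB' u hO hu
  have hn : 1 ≤ n := by omega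
  have hg1 : gap s n n' 1 := by
    cases s
    · simp only [gap, Bool.false_eq_true, if_false] at hg ⊢
      omega
    · simp only [gap, if_true] at hg ⊢
      omega
  have kne : ∀ k : Bool, k ≠ !k := by decide
  -- general selection with a predecessor map
  have sel : ∀ P : ℕ → ℕ, (∀ i < j, P i < j ∧ kol (P i) = !(kol i)) → ∃ a b : ℕ → V, ∀ i < j,
      ((nxt x n (a i) (b i) ∧ a i ≠ u i) ∨ nxt x n (b i) (a i)) ∧
        onArc x n (u (P i)) (u i) (a i) ∧ onArc x n (u (P i)) (u i) (b i) ∧ c (a i) = kol i ∧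
          c (b i) = !(kol i) ∧ Conn c (kol i) (AN s x n n') (u i) (a i) ∧
            crX s c x n n' (b i) := by
    intro P hP
    have : ∀ i, ∃ a b : V, i < j → (((nxt x n a b ∧ a ≠ u i) ∨ nxt x n b a) ∧
        onArc x n (u (P i)) (u i) a ∧ onArc x n (u (P i)) (u i) b ∧ c a = kol i ∧
          c b = !(kol i) ∧ Conn c (kol i) (AN s x n n') (u i) a ∧ crX s c x n n' b) := by
      intro i
      by_cases hi : i < j
      · obtain ⟨hp, hk⟩ := hP i hi
        obtain ⟨e1, x1⟩ := hu i hi
        obtain ⟨e2, x2⟩ := hu (P i) hp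
        obtain ⟨a, b, g1, g2, g3, g4, g5, g6⟩ := D3_sel hQO hQI s c x n n' he hn' hn hg1 (u i)
          (u (P i)) x1 x2 (by rw [e1, e2, hk]; exact kne _)
        refine ⟨a, b, fun _ => ⟨g1, g2, g3, ?_, ?_, ?_, g6⟩⟩
        · rw [(D3_crX_of x1 g2.2.2.1 g5).1, e1]
        · rw [g4, e2, hk]
        · rw [e1] at g5
          exact g5
      · exact ⟨(0, 0), (0, 0), fun h => absurd h hi⟩
    choose a b hab using this
    exact ⟨a, b, hab⟩
  -- conclusion from a selection with different edges and the right order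
  have fin : ∀ (P : ℕ → ℕ) (a b : ℕ → V), (∀ i < j,
      ((nxt x n (a i) (b i) ∧ a i ≠ u i) ∨ nxt x n (b i) (a i)) ∧
        onArc x n (u (P i)) (u i) (a i) ∧ onArc x n (u (P i)) (u i) (b i) ∧ c (a i) = kol i ∧
          c (b i) = !(kol i) ∧ Conn c (kol i) (AN s x n n') (u i) (a i) ∧
            crX s c x n n' (b i)) →
      (∀ i < j, ∀ i' < j, i ≠ i' →
        ¬ ((a i = a i' ∧ b i = b i') ∨ (a i = b i' ∧ b i = a i'))) →
      ((∀ i < j, ∀ i' < j, i ≠ i' → a i ≠ a i') → Ord j x n a) →
      ∃ u' : ℕ → V, Ord j x n u' ∧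
            (∀ i < j, u' i ∈ bd x n ∧ Conn c (kol i) (AN s x n n') (u i) (u' i)) ∧
            (∀ i < j, ∀ i' < j, i ≠ i' → r₂ ≤ sd (u' i) (u' i')) ∧
            ∀ i < j, ∀ i' < j, kol i ≠ kol i' → ∀ (p : V) (l : List V), far s x n' p →
              IsPath {v | v ∈ HS s x n ∧ c v = kol i} l (u' i) p → BNd l →
                ∀ w ∈ l, r₁ ≤ sd (u' i') w := by
    intro P a b hab hd hord
    obtain ⟨m1, m2⟩ := D3_core hDE hDA j s c x n n' r₁ r₂ r₃ he hn' hg h1 h12 h2 h23 h3 hB hB' u a
      b hu (fun i hi => by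
        obtain ⟨g1, g2, g3, g4, g5, g6, g7⟩ := hab i hi
        exact ⟨g1.imp (fun h => h.1) id, g2.2.2.1, g5, g6, g7⟩) hd
    refine ⟨a, hord fun i hi i' hi' hne h => ?_, fun i hi => ?_, m1, m2⟩
    · have := m1 i hi i' hi' hne
      rw [h] at this
      simp [sd] at this
      omega
    · obtain ⟨g1, g2, g3, g4, g5, g6, g7⟩ := hab i hi
      exact ⟨g2.2.2.1, g6⟩
  rcases hj with rfl | rfl
  · -- two arms
    obtain ⟨a, b, hab⟩ := sel (fun i => 1 - i) (by
      intro i hi
      interval_cases i <;> simp [kol])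
    refine fin _ a b hab ?_ ?_
    · intro i hi i' hi' hne h
      obtain ⟨g1, g2, g3, g4, g5, g6, g7⟩ := hab 0 (by omega)
      obtain ⟨f1, f2, f3, f4, f5, f6, f7⟩ := hab 1 (by omega)
      have hab01 : (a 0 = a 1 ∧ b 0 = b 1) ∨ (a 0 = b 1 ∧ b 0 = a 1) := by
        interval_cases i <;> interval_cases i' <;> first | exact absurd rfl hne | skip
        · exact h
        · rcases h with ⟨h, h'⟩ | ⟨h, h'⟩
          · exact Or.inl ⟨h.symm, h'.symm⟩
          · exact Or.inr ⟨h'.symm, h.symm⟩
      have c0 : c (a 0) = true := D3_kol0 g4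
      have c1 : c (a 1) = false := D3_kol1 f4
      have cu0 : c (u 0) = true := D3_kol0 (hu 0 (by omega)).1
      have cu1 : c (u 1) = false := D3_kol1 (hu 1 (by omega)).1
      rcases hab01 with ⟨h, _⟩ | ⟨h, h'⟩
      · rw [h, c1] at c0
        exact Bool.noConfusion c0
      · have hne01 : u 0 ≠ u 1 := fun h => by
          rw [h, cu1] at cu0
          exact Bool.noConfusion cu0
        have A0 : onArc x n (u 0) (u 1) (a 0) := h ▸ f3
        have B0 : onArc x n (u 0) (u 1) (b 0) := h' ▸ f2
        have e0 : a 0 = u 0 := by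
          rcases D3_arc2 hCG hn hne01 A0 g2 with e | e
          · exact e
          · rw [e, cu1] at c0
            exact Bool.noConfusion c0
        have e1 : b 0 = u 1 := by
          rcases D3_arc2 hCG hn hne01 B0 g3 with e | e
          · rw [← h', e, cu0] at c1
            exact Bool.noConfusion c1
          · exact e
        have n1 : nxt x n (u 1) (u 0) := by
          rcases g1 with g | g
          · exact absurd e0 g.2
          · rw [e0, e1] at g
            exact g
        have n2 : nxt x n (u 0) (u 1) := by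
          rcases f1 with g | g
          · exact absurd (h'.symm.trans e1) g.2
          · rw [← h, ← h', e0, e1] at g
            exact g
        have w1 := n1.2.2
        have w2 := n2.2.2
        omega
    · intro hne
      simp only [DP.Ord]
      exact hne 0 (by omega) 1 (by omega) (by omega)
  · -- four arms
    simp only [DP.Ord, if_true] at hO
    obtain ⟨hb, hnd, hO | hO⟩ := hO
    · obtain ⟨a, b, hab⟩ := sel (fun i => (i + 3) % 4) (by
        intro i hi
        interval_cases i <;> simp [kol])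
      have F := D3_arc4 hCG hn hb hnd hO.1 hO.2
      refine fin _ a b hab ?_ ?_
      · refine D3_edges 4 (fun i w => onArc x n (u ((i + 3) % 4)) (u i) w) a b ?_
          (fun i hi => (hab i hi).2.1) (fun i hi => (hab i hi).2.2.1) (fun i hi h => ?_)
        · intro i hi i' hi' hne w w' a1 a2 a3 a4
          obtain ⟨F1, F2, F3, F4, F5, F6⟩ := F w w'
          interval_cases i <;> interval_cases i' <;> first
            | exact absurd rfl hne
            | exact F1 a1 a2 a3 a4
            | exact F1 a3 a4 a1 a2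
            | exact F2 a1 a2 a3 a4
            | exact F2 a3 a4 a1 a2
            | exact F3 a1 a2 a3 a4
            | exact F3 a3 a4 a1 a2
            | exact F4 a1 a2 a3 a4
            | exact F4 a3 a4 a1 a2
            | exact F5 a1 a2 a3 a4
            | exact F5 a3 a4 a1 a2
            | exact F6 a1 a2 a3 a4
            | exact F6 a3 a4 a1 a2
        · have e1 := (hab i hi).2.2.2.1
          have e2 := (hab i hi).2.2.2.2.1
          rw [h, e2] at e1
          exact kne _ e1.symm
      · intro hne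
        simp only [DP.Ord, if_true]
        have k0 := (hab 0 (by omega)).2.1
        have k1 := (hab 1 (by omega)).2.1
        have k2 := (hab 2 (by omega)).2.1
        have k3 := (hab 3 (by omega)).2.1
        have d01 := hne 0 (by omega) 1 (by omega) (by omega)
        have d02 := hne 0 (by omega) 2 (by omega) (by omega)
        have d03 := hne 0 (by omega) 3 (by omega) (by omega)
        have d12 := hne 1 (by omega) 2 (by omega) (by omega)
        have d13 := hne 1 (by omega) 3 (by omega) (by omega)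
        have d23 := hne 2 (by omega) 3 (by omega) (by omega)
        refine ⟨⟨k0.2.2.1, k1.2.2.1, k2.2.2.1, k3.2.2.1⟩, ?_, Or.inl ?_⟩
        · simp only [List.nodup_cons, List.mem_cons, List.not_mem_nil, or_false, not_or,
            List.nodup_nil, and_true, not_false_eq_true]
          exact ⟨⟨d01, d02, d03⟩, ⟨d12, d13⟩, d23⟩
        · exact D3_ord4 hCG hn hb hnd hO.1 hO.2 k0 k1 k2 k3 d01 d02 d03 d12 d13 d23
    · obtain ⟨a, b, hab⟩ := sel (fun i => (i + 1) % 4) (by
        intro i hi
        interval_cases i <;> simp [kol])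
      have hnd' : [u 0, u 3, u 2, u 1].Nodup := by
        simp only [List.nodup_cons, List.mem_cons, List.not_mem_nil, or_false, not_or,
          List.nodup_nil, and_true, not_false_eq_true] at hnd ⊢
        obtain ⟨⟨n01, n02, n03⟩, ⟨n12, n13⟩, n23⟩ := hnd
        exact ⟨⟨n03, n02, n01⟩, ⟨fun h => n23 h.symm, fun h => n13 h.symm⟩, fun h => n12 h.symm⟩
      have hb' : u 0 ∈ bd x n ∧ u 3 ∈ bd x n ∧ u 2 ∈ bd x n ∧ u 1 ∈ bd x n :=
        ⟨hb.1, hb.2.2.2, hb.2.2.1, hb.2.1⟩
      have F := D3_arc4 hCG hn hb' hnd' hO.1 hO.2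
      refine fin _ a b hab ?_ ?_
      · refine D3_edges 4 (fun i w => onArc x n (u ((i + 1) % 4)) (u i) w) a b ?_
          (fun i hi => (hab i hi).2.1) (fun i hi => (hab i hi).2.2.1) (fun i hi h => ?_)
        · intro i hi i' hi' hne w w' a1 a2 a3 a4
          obtain ⟨F1, F2, F3, F4, F5, F6⟩ := F w w'
          interval_cases i <;> interval_cases i' <;> first
            | exact absurd rfl hne
            | exact F1 a1 a2 a3 a4
            | exact F1 a3 a4 a1 a2
            | exact F2 a1 a2 a3 a4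
            | exact F2 a3 a4 a1 a2
            | exact F3 a1 a2 a3 a4
            | exact F3 a3 a4 a1 a2
            | exact F4 a1 a2 a3 a4
            | exact F4 a3 a4 a1 a2
            | exact F5 a1 a2 a3 a4
            | exact F5 a3 a4 a1 a2
            | exact F6 a1 a2 a3 a4
            | exact F6 a3 a4 a1 a2
        · have e1 := (hab i hi).2.2.2.1
          have e2 := (hab i hi).2.2.2.2.1
          rw [h, e2] at e1
          exact kne _ e1.symm
      · intro hne
        simp only [DP.Ord, if_true]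
        have k0 := (hab 0 (by omega)).2.1
        have k1 := (hab 1 (by omega)).2.1
        have k2 := (hab 2 (by omega)).2.1
        have k3 := (hab 3 (by omega)).2.1
        have d01 := hne 0 (by omega) 1 (by omega) (by omega)
        have d02 := hne 0 (by omega) 2 (by omega) (by omega)
        have d03 := hne 0 (by omega) 3 (by omega) (by omega)
        have d12 := hne 1 (by omega) 2 (by omega) (by omega)
        have d13 := hne 1 (by omega) 3 (by omega) (by omega)
        have d23 := hne 2 (by omega) 3 (by omega) (by omega)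
        refine ⟨⟨k0.2.2.1, k1.2.2.1, k2.2.2.1, k3.2.2.1⟩, ?_, Or.inr ?_⟩
        · simp only [List.nodup_cons, List.mem_cons, List.not_mem_nil, or_false, not_or,
            List.nodup_nil, and_true, not_false_eq_true]
          exact ⟨⟨d01, d02, d03⟩, ⟨d12, d13⟩, d23⟩
        · exact D3_ord4 hCG hn hb' hnd' hO.1 hO.2 k0 k3 k2 k1 d03 d02 d01 d23.symm d13.symm
            d12.symm

end TP
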