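import Pool.Agent.helper92.DP.ML
import Pool.Agent.helper64.TP.SpecD

/-!
# Rerouting lemma without common bricks, existence of brick-simple paths
-/

namespace TP

open DP

theorem ML_hit {W : Set V} {l₁ l₂ : List V} {a w w₁ z₁ : V} (ha : a ∈ W) (hw : w ∈ l₁)
    (hb : br a = br w) (h₁ : IsPath W l₁ w₁ z₁) (hd : BDis {v | v ∈ l₁} {v | v ∈ l₂}) :
    ∃ l, IsPath W l a z₁ ∧ BDis {v | v ∈ l} {v | v ∈ l₂} := by
  obtain ⟨l, hl, hm⟩ := ML_suffix W l₁ w₁ z₁ w h₁ hw
  by_cases haw : a = w
  · subst haw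
    exact ⟨l, hl, fun v hv v' hv' => hd v (hm v hv) v' hv'⟩
  · refine ⟨a :: l, hl.cons (br_adj hb haw) ha, ?_⟩
    intro v hv v' hv'
    rcases List.mem_cons.1 hv with rfl | hv
    · rw [hb]
      exact hd w hw v' hv'
    · exact hd v (hm v hv) v' hv'

theorem ML_cons {a : V} {l l₁ : List V} (h : BDis {v | v ∈ l} {v | v ∈ l₁}) (ha : ∀ w ∈ l₁, br a ≠ br w) :
    BDis {v | v ∈ a :: l} {v | v ∈ l₁} := by
  intro v hv v' hv'
  rcases List.mem_cons.1 hv with rfl | hv
  · exact ha v' hv'
  · exact h v hv v' hv'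

theorem ML : ML_stmt := by
  intro W a z w₁ z₁ w₂ z₂ l₁ l₂ hc h₁ h₂ hd
  have hd' : BDis {v | v ∈ l₂} {v | v ∈ l₁} := BDis.symm hd
  obtain ⟨haW, hr⟩ := hc
  induction hr using Relation.ReflTransGen.head_induction_on with
  | refl =>
    by_cases hz1 : ∃ w ∈ l₁, br z = br w
    · obtain ⟨w, hw, hb⟩ := hz1
      obtain ⟨l, hl, hm⟩ := ML_hit haW hw hb h₁ hd
      exact ⟨l, z₁, hl, Or.inr (Or.inl rfl), Or.inr hm⟩
    · refine ⟨[z], z, IsPath.singleton haW, Or.inl rfl, Or.inl ?_⟩
      intro v hv v' hv' e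
      have hv2 : v = z := List.mem_singleton.1 hv
      subst hv2
      exact hz1 ⟨v', hv', e⟩
  | head hab hbz ih =>
    rename_i a b
    by_cases ha1 : ∃ w ∈ l₁, br a = br w
    · obtain ⟨w, hw, hb⟩ := ha1
      obtain ⟨l, hl, hm⟩ := ML_hit haW hw hb h₁ hd
      exact ⟨l, z₁, hl, Or.inr (Or.inl rfl), Or.inr hm⟩
    · by_cases ha2 : ∃ w ∈ l₂, br a = br w
      · obtain ⟨w, hw, hb⟩ := ha2
        obtain ⟨l, hl, hm⟩ := ML_hit haW hw hb h₂ hd'
        exact ⟨l, z₂, hl, Or.inr (Or.inr rfl), Or.inl hm⟩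
      · obtain ⟨l, z', hl, hz', hdl⟩ := ih hab.2
        refine ⟨a :: l, z', hl.cons hab.1 haW, hz', ?_⟩
        rcases hdl with hdl | hdl
        · exact Or.inl (ML_cons hdl fun w hw e => ha1 ⟨w, hw, e⟩)
        · exact Or.inr (ML_cons hdl fun w hw e => ha2 ⟨w, hw, e⟩)

/-! ## Brick-simple paths -/

/-- The final part of a path. -/
theorem ML_right {W : Set V} {s t : List V} {w u v : V} (h : IsPath W (s ++ w :: t) u v) :
    IsPath W (w :: t) w v := by
  refine ⟨rfl, ?_, (List.isChain_append.1 h.2.2.1).2.1, fun y hy =>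
    h.2.2.2 y (List.mem_append_right _ hy)⟩
  have := h.2.1
  rwa [List.getLast?_append_of_ne_nil _ (by simp)] at this

/-- Replace the final part of a path. -/
theorem ML_glue {W : Set V} {s t t' : List V} {w u v v' : V} (h : IsPath W (s ++ w :: t) u v)
    (h' : IsPath W (w :: t') w v') : IsPath W (s ++ w :: t') u v' := by
  refine ⟨?_, ?_, ?_, ?_⟩
  · have := h.1
    cases s with
    | nil => simpa using this
    | cons a s => simpa using this
  · have := h'.2.1
    rwa [List.getLast?_append_of_ne_nil _ (by simp)]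
  · have h1 := List.isChain_append.1 h.2.2.1
    refine List.isChain_append.2 ⟨h1.1, h'.2.2.1, ?_⟩
    intro x hx y hy
    refine h1.2.2 x hx y ?_
    simpa using hy
  · intro y hy
    rcases List.mem_append.1 hy with hy | hy
    · exact h.2.2.2 y (List.mem_append_left _ hy)
    · exact h'.2.2.2 y hy

theorem BN : BN_stmt := by
  classical
  intro W u v h
  have hex : ∃ n, ∃ l, IsPath W l u v ∧ l.length = n := by
    obtain ⟨l, hl, -⟩ := h.exists_path
    exact ⟨l.length, l, hl, rfl⟩
  obtain ⟨l, hl, hlen⟩ := Nat.find_spec hex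
  have hmin : ∀ l', IsPath W l' u v → l.length ≤ l'.length := by
    intro l' hl'
    rw [hlen]
    exact Nat.find_min' hex ⟨l', hl', rfl⟩
  -- no shortcut inside a brick
  have key : ∀ (s m t : List V) (x y : V), l = s ++ x :: (m ++ y :: t) → br x = br y →
      m = [] ∧ x ≠ y := by
    intro s m t x y he hb
    have hl' := hl
    rw [he] at hl'
    have hx : IsPath W (x :: (m ++ y :: t)) x v := ML_right hl'
    have hy : IsPath W (y :: t) y v := by
      have : IsPath W ((x :: m) ++ y :: t) x v := hx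
      exact ML_right this
    by_cases hxy : x = y
    · subst hxy
      have h1 := ML_glue hl' hy
      have h2 := hmin _ h1
      rw [he] at h2
      simp only [List.length_append, List.length_cons] at h2
      omega
    · have h1 : IsPath W (x :: y :: t) x v := hy.cons (br_adj hb hxy) (hx.2.2.2 x (by simp))
      have h2 := hmin _ (ML_glue hl' h1)
      rw [he] at h2
      simp only [List.length_append, List.length_cons] at h2
      exact ⟨List.eq_nil_of_length_eq_zero (by omega), hxy⟩
  refine ⟨l, hl, ?_, ?_⟩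
  · rw [List.nodup_iff_sublist]
    intro x hx
    -- two occurrences
    obtain ⟨s, t, he, hx2⟩ : ∃ s t, l = s ++ x :: t ∧ x ∈ t := by
      clear key hmin hlen hl
      induction l with
      | nil => simp at hx
      | cons a l ih =>
        rcases List.sublist_cons_iff.1 hx with h1 | ⟨r, h1, h2⟩
        · obtain ⟨s, t, he, hx2⟩ := ih h1
          exact ⟨a :: s, t, by rw [he]; rfl, hx2⟩
        · simp only [List.cons.injEq] at h1
          obtain ⟨rfl, rfl⟩ := h1
          exact ⟨[], l, rfl, List.singleton_sublist.1 h2⟩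
    obtain ⟨m, t', rfl⟩ := List.append_of_mem hx2
    exact (key s m t' x x he rfl).2 rfl
  · intro s w t he x hx y hy hb
    obtain ⟨s1, s2, rfl⟩ := List.append_of_mem hx
    obtain ⟨t1, t2, rfl⟩ := List.append_of_mem hy
    have h1 := key s1 (s2 ++ w :: t1) t2 x y (by rw [he]; simp) hb
    simp at h1

end TP
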