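import Pool.Agent.helper64.DP.DA
import Pool.Agent.helper51.TP.ML

/-!
# Brick-simple paths from far away avoid the ends of other interface edges
-/

namespace TP

open DP

/-- A simple path which enters the box `box b (r - 1)` contains two disjoint crossings. -/
theorem DA_two {W : Set V} {b : V} {r R : ℕ} {l : List V} {u w p : V} (h : IsPath W l u p)
    (hnd : BNd l) (hw : w ∈ l) (hwr : sd b w < r) (hrR : r ≤ R) (hu : R ≤ sd b u)
    (hp : R ≤ sd b p) : ∃ (l₁ l₂ : List V) (w₁ z₁ w₂ z₂ : V), IsPath (W ∩ box b R) l₁ w₁ z₁ ∧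
      IsPath (W ∩ box b R) l₂ w₂ z₂ ∧ sd b w₁ = r ∧ sd b z₁ = R ∧ sd b w₂ = r ∧ sd b z₂ = R ∧
      BDis {v | v ∈ l₁} {v | v ∈ l₂} := by
  obtain ⟨s, t, rfl⟩ := List.append_of_mem hw
  have h1 : IsPath W (w :: t) w p := by
    refine ⟨rfl, ?_, (List.isChain_append.1 h.2.2.1).2.1, fun v hv =>
      h.2.2.2 v (List.mem_append_right _ hv)⟩
    have := h.2.1
    rwa [List.getLast?_append_of_ne_nil _ (by simp)] at this
  have h2 : IsPath W (w :: s.reverse) w u := by
    have h3 := h.reverse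
    rw [List.reverse_append, List.reverse_cons, List.append_assoc] at h3
    refine ⟨rfl, ?_, ?_, ?_⟩
    · have := h3.2.1
      rw [List.getLast?_append_of_ne_nil _ (by simp)] at this
      simpa using this
    · have := (List.isChain_append.1 h3.2.2.1).2.1
      simpa using this
    · intro v hv
      exact h3.2.2.2 v (List.mem_append_right _ (by simpa using hv))
  obtain ⟨l₂, w₂, z₂, a1, a2, a3, a4⟩ := DA_piece h1 hwr hrR hp
  obtain ⟨l₁, w₁, z₁, b1, b2, b3, b4⟩ := DA_piece h2 hwr hrR hu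
  refine ⟨l₁, l₂, w₁, z₁, w₂, z₂, b2, a2, b3, b4, a3, a4, ?_⟩
  intro v hv1 v' hv2
  exact hnd.2 s w t rfl v (List.mem_reverse.1 (b1 v hv1)) v' (a1 v' hv2)

theorem DA (hML : ML_stmt) (hCG : CG3_stmt) : DA_stmt := by
  intro s c k x n n' r₁ r₂ he hn' hg h1 h12 h2n hB a b hab hca hcb hxa hxb u p l hu hp hl hnd w hw
  by_contra hlt
  rw [not_le] at hlt
  apply hB
  have hb : b ∈ bd x n := by
    rcases hab with h | h
    · exact h.2.1
    · exact h.1
  have hadj : Adj b a := by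
    rcases hab with h | h
    · exact (hCG x n a b (by omega) h).1.symm
    · exact (hCG x n b a (by omega) h).1
  have hba : sd b a ≤ r₂ := by
    have := hadj.sd
    omega
  have hbp : r₂ ≤ sd b p := by
    have hxb' : sd x b = n := hb
    cases s
    · simp only [gap, Bool.false_eq_true, if_false] at hg
      simp only [far, Bool.false_eq_true, if_false] at hp
      have h2 := sd_triangle x b p
      omega
    · simp only [gap, if_true] at hg
      simp only [far, if_true] at hp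
      have h2 := sd_triangle x p b
      have h3 := sd_comm b p
      omega
  obtain ⟨z, hz, hcz⟩ := DA_arm hg hxa hb hba
  obtain ⟨z', hz', hcz'⟩ := DA_arm hg hxb hb (by simp)
  rw [hca] at hcz
  rw [hcb] at hcz'
  obtain ⟨l₁, l₂, w₁, z₁, w₂, z₂, p1, p2, q1, q2, q3, q4, hdis⟩ :=
    DA_two hl hnd hw hlt h12.le hu hbp
  have hW : ({v | v ∈ HS s x n ∧ c v = k} ∩ box b r₂ : Set V) ⊆
      {v | v ∈ HS s x n ∩ box b r₂ ∧ c v = k} := by
    rintro v ⟨⟨h3, h4⟩, h5⟩
    exact ⟨⟨h3, h5⟩, h4⟩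
  obtain ⟨m, y, hm, hy, hmd⟩ := hML _ a z w₁ z₁ w₂ z₂ l₁ l₂ hcz (p1.mono hW) (p2.mono hW) hdis
  have hyR : sd b y = r₂ := by
    rcases hy with rfl | rfl | rfl
    · exact hz
    · exact q2
    · exact q4
  refine ⟨a, b, k, hab, hca, hcb, ⟨z', hz', hcz'⟩, ?_⟩
  rcases hmd with h3 | h3
  · exact ⟨m, l₁, y, w₁, z₁, hyR, q1, q2, hm, p1.mono hW, h3⟩
  · exact ⟨m, l₂, y, w₂, z₂, hyR, q3, q4, hm, p2.mono hW, h3⟩

end TP
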